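import Pool.Agent.TH931.LA.Fin

set_option autoImplicit false

/-!
Families of `k + 1` layers of the cube: if constant depth circuits tell two layers out of any
`k + 1` layers apart with a small advantage, then they compute majority.
-/

namespace Pool.Agent.TH707.IL

open Pool.Agent.TH762.AC Pool.Agent.TH931.LA

variable {G : ℕ → ℕ → Prop}

/-- The layers `w` and `u` are told apart without error. -/
def Sep (G : ℕ → ℕ → Prop) (S D n w u : ℕ) : Prop :=
  ∃ g : (Fin n → Bool) → Prop, CC G n S D g ∧ (∀ x, ones x = w → ¬ g x) ∧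
    ∀ x, ones x = u → g x

/-- From the separation of two out of any `k + 1` layers to the exclusion of one out of `k + 1`
intervals. -/
theorem excludes_of_sep {k : ℕ} {s : ℕ → ℕ} (hs : PolyB s) {D : ℕ}
    (h : ∀ n, 1 ≤ n → ∀ W : Finset ℕ, (∀ w ∈ W, w ≤ n) → W.card = k + 1 →
      ∃ w ∈ W, ∃ u ∈ W, w ≠ u ∧ Sep G (s n) D n w u) : Excludes G k := by
  classical
  let apart : ℕ → ℕ → ℕ → Prop := fun n w u =>
    w ≠ u ∧ (Sep G (s n) D n w u ∨ Sep G (s n) D n u w)
  have hex : ∀ n w u, ∃ g : (Fin n → Bool) → Prop, CC G n (1 + (1 + s n)) (D + 2) g ∧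
      (apart n w u → (∀ x, ones x = w → g x) ∧ ∀ x, ones x = u → ¬ g x) := by
    intro n w u
    by_cases hc : apart n w u
    · obtain ⟨-, ⟨g, g1, g2, g3⟩ | ⟨g, g1, g2, g3⟩⟩ := id hc
      · exact ⟨fun x => ¬ g x, g1.not.mono (by omega) (by omega),
          fun _ => ⟨g2, fun x hx => not_not.2 (g3 x hx)⟩⟩
      · exact ⟨g, g1.mono (by omega) (by omega), fun _ => ⟨g3, g2⟩⟩
    · exact ⟨fun _ => True, (CC.const True).mono (by omega) (by omega), fun h => absurd h hc⟩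
  choose g hg1 hg2 using hex
  let sel : ∀ n, ℕ × ℕ → (Fin n → Bool) → Prop := fun n p x =>
    if p.1 < p.2 then g n p.1 p.2 x else ¬ g n p.2 p.1 x
  have hapc : ∀ n w u, apart n w u → apart n u w := fun n w u hh => ⟨hh.1.symm, hh.2.symm⟩
  have hself : ∀ n w u, apart n w u → ∀ x, ones x = w → sel n (w, u) x := by
    intro n w u ha x hx
    show if w < u then g n w u x else ¬ g n u w x
    by_cases hlt : w < u
    · rw [if_pos hlt]; exact (hg2 n w u ha).1 x hx
    · rw [if_neg hlt]; exact (hg2 n u w (hapc n w u ha)).2 x hx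
  have hanti : ∀ n w u, w ≠ u → ∀ x, sel n (w, u) x → sel n (u, w) x → False := by
    intro n w u hne x h1 h2
    have h1' : if w < u then g n w u x else ¬ g n u w x := h1
    have h2' : if u < w then g n u w x else ¬ g n w u x := h2
    rcases Nat.lt_or_gt_of_ne hne with hlt | hlt
    · rw [if_pos hlt] at h1'
      rw [if_neg (by omega)] at h2'
      exact h2' h1'
    · rw [if_neg (by omega)] at h1'
      rw [if_pos hlt] at h2'
      exact h1' h2'
  have p1 : PF G (ι := fun _ => ℕ × ℕ) (fun n p x => sel n p x) := by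
    refine ⟨fun n => 1 + (1 + (1 + s n)),
      (PolyB.const 1).add ((PolyB.const 1).add ((PolyB.const 1).add hs)), D + 3,
      fun n _ p => ?_⟩
    by_cases hlt : p.1 < p.2
    · refine ((hg1 n p.1 p.2).mono (by beta_reduce; omega) (by omega)).congr fun x => ?_
      show (if p.1 < p.2 then g n p.1 p.2 x else ¬ g n p.2 p.1 x) ↔ _
      rw [if_pos hlt]
    · refine ((hg1 n p.2 p.1).not.mono (by beta_reduce; omega) (by omega)).congr fun x => ?_
      show (if p.1 < p.2 then g n p.1 p.2 x else ¬ g n p.2 p.1 x) ↔ _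
      rw [if_neg hlt]
  have p2 : PF G (ι := fun _ => ℕ × ℕ) (fun n p (x : Fin n → Bool) =>
      apart n p.1 p.2 → sel n p x) :=
    (PF.static (fun n (p : ℕ × ℕ) => apart n p.1 p.2)).imp p1
  have p3 : PF G (ι := fun _ => ℕ) (fun n (w : ℕ) (x : Fin n → Bool) =>
      ∀ u ≤ n, apart n w u → sel n (w, u) x) := p2.allN
  have p4 : PF G (ι := fun _ => (Finset ℕ × ℕ) × ℕ) (fun n q (x : Fin n → Bool) =>
      (q.1.1.filter (fun t => t ≤ q.2)).card = q.1.2 →
        ¬ ∀ u ≤ n, apart n q.2 u → sel n (q.2, u) x) :=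
    (PF.static (fun _ (q : (Finset ℕ × ℕ) × ℕ) =>
      (q.1.1.filter (fun t => t ≤ q.2)).card = q.1.2)).imp
      ((p3.map (ι' := fun _ => (Finset ℕ × ℕ) × ℕ) (fun _ q => q.2)).not)
  have p5 : PF G (ι := fun _ => Finset ℕ × ℕ) (fun n (q : Finset ℕ × ℕ) (x : Fin n → Bool) =>
      ∀ w ≤ n, (q.1.filter (fun t => t ≤ w)).card = q.2 →
        ¬ ∀ u ≤ n, apart n w u → sel n (w, u) x) := p4.allN
  obtain ⟨s5, ⟨a, ha⟩, D5, hD5⟩ := p5
  refine ⟨a, D5, fun n hn T hT hTc => ⟨fun v x => ∀ w ≤ n,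
    (T.filter (fun t => t ≤ w)).card = v.val → ¬ ∀ u ≤ n, apart n w u → sel n (w, u) x,
    fun v => (circ_iff _ _ _ _ _).2 ((hD5 n hn (T, v.val)).mono (ha n) le_rfl), fun x => ⟨?_, ?_⟩⟩⟩
  · by_contra hno
    have hall : ∀ v : Fin (k + 1), ∃ w, w ≤ n ∧ (T.filter (fun t => t ≤ w)).card = v.val ∧
        ∀ u ≤ n, apart n w u → sel n (w, u) x := by
      intro v
      by_contra hc
      exact hno ⟨v, fun w hw hcard hP => hc ⟨w, hw, hcard, hP⟩⟩
    choose W hW1 hW2 hW3 using hall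
    have hinj : Function.Injective W := by
      intro i j hij
      apply Fin.ext
      rw [← hW2 i, ← hW2 j, hij]
    obtain ⟨w, hw, u, hu, hne, hsep⟩ := h n hn (Finset.univ.image W) (by
      intro w hw
      rw [Finset.mem_image] at hw
      obtain ⟨i, -, rfl⟩ := hw
      exact hW1 i) (by
      rw [Finset.card_image_of_injective _ hinj, Finset.card_univ, Fintype.card_fin])
    rw [Finset.mem_image] at hw hu
    obtain ⟨i, -, rfl⟩ := hw
    obtain ⟨j, -, rfl⟩ := hu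
    have ha1 : apart n (W i) (W j) := ⟨hne, Or.inl hsep⟩
    exact hanti n (W i) (W j) hne x (hW3 i (W j) (hW1 j) ha1)
      (hW3 j (W i) (hW1 i) (hapc _ _ _ ha1))
  · intro v hv hcard
    exact hv (ones x) (ones_le x) hcard (fun u _ hap => hself n (ones x) u hap x rfl)

theorem pad_arith {b : ℕ} (hb : 2 ≤ b) (c N w u : ℕ) (hN : 1 ≤ N) (hw : w ≤ N) (hu : u ≤ N) :
    ∃ j : ℕ, 1 ≤ b ^ j * N + b ^ j * (N - (w + u)) + b ^ j * ((w + u) - N) ∧
      b ^ j * N + b ^ j * (N - (w + u)) + b ^ j * ((w + u) - N) ≤ b * (2 * N) ^ (c + 1) ∧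
      (b ^ j * w + b ^ j * (N - (w + u))) + (b ^ j * u + b ^ j * (N - (w + u))) =
        b ^ j * N + b ^ j * (N - (w + u)) + b ^ j * ((w + u) - N) ∧
      (b ^ j * N + b ^ j * (N - (w + u)) + b ^ j * ((w + u) - N)) ^ c ≤ (b ^ j) ^ (c + 1) := by
  obtain ⟨j, hj1, hj2⟩ : ∃ j, (2 * N) ^ c ≤ b ^ j ∧ b ^ j ≤ b * (2 * N) ^ c := by
    refine ⟨Nat.log b ((2 * N) ^ c) + 1, (Nat.lt_pow_succ_log_self (by omega) _).le, ?_⟩
    rw [pow_succ, mul_comm]
    refine Nat.mul_le_mul_left _ (Nat.pow_log_le_self b ?_)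
    exact (pow_pos (by omega) c).ne'
  refine ⟨j, ?_⟩
  have hr : 0 < b ^ j := pow_pos (by omega) j
  set r := b ^ j with hrdef
  set n := r * N + r * (N - (w + u)) + r * ((w + u) - N) with hndef
  have hn : n = r * (N + (N - (w + u)) + ((w + u) - N)) := by
    rw [hndef]; ring
  have hn2 : n ≤ r * (2 * N) := by
    rw [hn]
    exact Nat.mul_le_mul_left _ (by omega)
  refine ⟨?_, ?_, ?_, ?_⟩
  · rw [hn]
    exact Nat.mul_pos hr (by omega)
  · calc n ≤ r * (2 * N) := hn2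
      _ ≤ b * (2 * N) ^ c * (2 * N) := Nat.mul_le_mul_right _ hj2
      _ = b * (2 * N) ^ (c + 1) := by ring
  · rw [hn]
    have : r * w + r * (N - (w + u)) + (r * u + r * (N - (w + u))) =
        r * (w + (N - (w + u)) + (u + (N - (w + u)))) := by ring
    rw [this]
    congr 1
    omega
  · have h2 : n ^ c ≤ (r * (2 * N)) ^ c := Nat.pow_le_pow_left hn2 c
    have h3 : (r * (2 * N)) ^ c ≤ r ^ (c + 1) := by
      rw [mul_pow, pow_succ]
      exact Nat.mul_le_mul_left _ hj1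
    exact h2.trans h3

/-- Circuits of polynomial size and constant depth tell two out of any `k + 1` layers apart, with
advantage at least `1 / (log n + 1) ^ e`.  The sets `W` of layers are symmetric in the sense that
`min W + max W = n`, and a power `B` of `b` with `n ^ c ≤ B ^ (c + 1)` divides all `w ∈ W`. -/
def TellsTwoOf (G : ℕ → ℕ → Prop) (k b c e : ℕ) : Prop :=
  ∃ a D : ℕ, ∀ n : ℕ, 1 ≤ n → ∀ s t : ℕ, s + t = n → ∀ W : Finset ℕ, W ⊆ Finset.Icc s t →
    s ∈ W → t ∈ W → W.card = k + 1 →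
    (∃ j : ℕ, (∀ w ∈ W, b ^ j ∣ w) ∧ n ^ c ≤ (b ^ j) ^ (c + 1)) →
    ∃ u ∈ W, ∃ v ∈ W, ∃ f : (Fin n → Bool) → Prop, Circ G n (a * n ^ a + a) D f ∧
      1 / ((Nat.log 2 n : ℝ) + 1) ^ e ≤ |frac f v - frac f u|

theorem excludes_of_tells {k b c e : ℕ} (hk : 1 ≤ k) (hb : 2 ≤ b) (h : TellsTwoOf G k b c e) :
    Excludes G k := by
  classical
  obtain ⟨a, D, h⟩ := h
  let Q : ℕ → ℕ → ℕ → Prop := fun n s t => ∃ f : (Fin n → Bool) → Prop,
    CC G n (a * n ^ a + a) D f ∧ 1 / ((Nat.log 2 n : ℝ) + 1) ^ e ≤ |frac f t - frac f s|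
  have hQ : Tell G Q e := ⟨a, D, fun n _ s t hst => hst⟩
  obtain ⟨s', ⟨a', ha'⟩, D', h1⟩ := exact_family hQ
  have hp : PolyB (fun N => b * (2 * N) ^ (c + 1)) :=
    (PolyB.const b).mul (((PolyB.const 2).mul PolyB.id).pow (c + 1))
  have hs : PolyB (fun N => (a' * (b * (2 * N) ^ (c + 1)) ^ a' + a') + b * (2 * N) ^ (c + 1)) :=
    (((PolyB.const a').mul (hp.pow a')).add (PolyB.const a')).add hp
  refine excludes_of_sep hs (D := 1 + D') fun N hN W0 hW0 hcard => ?_
  have hne : W0.Nonempty := Finset.card_pos.1 (by omega)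
  set s0 := W0.min' hne with hs0
  set t0 := W0.max' hne with ht0
  have hs0m : s0 ∈ W0 := W0.min'_mem hne
  have ht0m : t0 ∈ W0 := W0.max'_mem hne
  obtain ⟨j, k1, k2, k3, k4⟩ := pad_arith hb c N s0 t0 hN (hW0 _ hs0m) (hW0 _ ht0m)
  have hr : 0 < b ^ j := pow_pos (by omega) j
  set n := b ^ j * N + b ^ j * (N - (s0 + t0)) + b ^ j * ((s0 + t0) - N) with hn
  set j1 := b ^ j * (N - (s0 + t0)) with hj1
  have hinj : Function.Injective (fun w : ℕ => b ^ j * w + j1) := by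
    intro w u hwu
    have h2 : b ^ j * w = b ^ j * u := by
      have : b ^ j * w + j1 = b ^ j * u + j1 := hwu
      omega
    exact Nat.eq_of_mul_eq_mul_left hr h2
  obtain ⟨u, hu, v, hv, f, hf1, hf2⟩ := h n k1 (b ^ j * s0 + j1) (b ^ j * t0 + j1) k3
    (W0.image (fun w => b ^ j * w + j1)) (by
      intro z hz
      rw [Finset.mem_image] at hz
      obtain ⟨w, hw, rfl⟩ := hz
      rw [Finset.mem_Icc]
      exact ⟨Nat.add_le_add_right (Nat.mul_le_mul_left _ (W0.min'_le w hw)) _,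
        Nat.add_le_add_right (Nat.mul_le_mul_left _ (W0.le_max' w hw)) _⟩)
    (Finset.mem_image_of_mem _ hs0m) (Finset.mem_image_of_mem _ ht0m)
    (by rw [Finset.card_image_of_injective _ hinj, hcard])
    ⟨j, by
      intro z hz
      rw [Finset.mem_image] at hz
      obtain ⟨w, _, rfl⟩ := hz
      exact Nat.dvd_add (Nat.dvd_mul_right _ _) (Nat.dvd_mul_right _ _), k4⟩
  rw [Finset.mem_image] at hu hv
  obtain ⟨w, hw, rfl⟩ := hu
  obtain ⟨w', hw', rfl⟩ := hv
  have hww : w ≠ w' := by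
    rintro rfl
    rw [sub_self, abs_zero] at hf2
    have : (0 : ℝ) < 1 / ((Nat.log 2 n : ℝ) + 1) ^ e := by positivity
    linarith
  obtain ⟨g, g1, g2, g3⟩ := h1 n k1 _ _ ⟨f, (circ_iff _ _ _ _ _).1 hf1, hf2⟩
  obtain ⟨g', l1, l2, l3⟩ := embed (N := N) (r := b ^ j) (j1 := j1)
    (j0 := b ^ j * ((s0 + t0) - N)) hn g1 w w' g2 g3
  refine ⟨w, hw, w', hw', hww, g', l1.mono ?_ le_rfl, l2, l3⟩
  refine Nat.add_le_add ((ha' _).trans ?_) k2
  exact Nat.add_le_add_right (Nat.mul_le_mul_left _ (Nat.pow_le_pow_left k2 a')) a'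

theorem tc0_sub_iff_two (G : ℕ → ℕ → Prop) (k b c e : ℕ) (hk : 1 ≤ k) (hb : 2 ≤ b) :
    TC0 ⊆ {L | Decides G L} ↔ TellsTwoOf G k b c e := by
  constructor
  · intro h
    obtain ⟨a, D, h1⟩ := (tc0_sub_iff_tells G 2 0 e le_rfl).1 h
    refine ⟨a, D, fun n hn s t hst W hW hs ht hcard _ => ?_⟩
    have hlt : s < t := by
      by_contra hle
      have h2 : W ⊆ {s} := by
        intro w hw
        have := Finset.mem_Icc.1 (hW hw)
        rw [Finset.mem_singleton]; omega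
      have := Finset.card_le_card h2
      rw [Finset.card_singleton] at this
      omega
    obtain ⟨f, hf1, hf2⟩ := h1 n hn s t hlt hst ⟨0, by simp⟩
    exact ⟨s, hs, t, ht, f, hf1, hf2⟩
  · intro h
    exact (tc0_sub_iff G).2 ⟨k, hk, excludes_of_tells hk hb h⟩

theorem acc0_eq_iff_two (k c e : ℕ) (hk : 1 ≤ k) :
    ACC0 = TC0 ↔ ∃ m, 2 ≤ m ∧ TellsTwoOf (fun _ q => q % m ≠ 0) k m c e := by
  rw [acc0_eq_iff]
  constructor
  · rintro ⟨m, hm, h⟩
    exact ⟨m, hm, (tc0_sub_iff_two _ k m c e hk hm).1 ((tc0_sub_iff _).2 h)⟩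
  · rintro ⟨m, hm, h⟩
    exact ⟨m, hm, (tc0_sub_iff _).1 ((tc0_sub_iff_two _ k m c e hk hm).2 h)⟩

/-- Circuits of polynomial size and constant depth guess which of `k + 1` layers a random word
comes from better than at random: `N` names a layer, and for the layers in `W` (symmetric, and
divisible by `B`, as before) the probabilities that `N` names the layer of a random word of that
layer sum up to at least `1 + 1 / (log n + 1) ^ e`; guessing at random gives the sum `1`. -/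
def GuessesOneOf (G : ℕ → ℕ → Prop) (k b c e : ℕ) : Prop :=
  ∃ a D : ℕ, ∀ n : ℕ, 1 ≤ n → ∀ s t : ℕ, s + t = n → ∀ W : Finset ℕ, W ⊆ Finset.Icc s t →
    s ∈ W → t ∈ W → W.card = k + 1 →
    (∃ j : ℕ, (∀ w ∈ W, b ^ j ∣ w) ∧ n ^ c ≤ (b ^ j) ^ (c + 1)) →
    ∃ N : (Fin n → Bool) → ℕ, (∀ w ∈ W, Circ G n (a * n ^ a + a) D (fun x => N x = w)) ∧
      1 + 1 / ((Nat.log 2 n : ℝ) + 1) ^ e ≤ ∑ w ∈ W, frac (fun x => N x = w) w

theorem sum_frac_le_one {n : ℕ} (N : (Fin n → Bool) → ℕ) (W : Finset ℕ) (s : ℕ) :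
    ∑ w ∈ W, frac (fun x => N x = w) s ≤ 1 := by
  classical
  have h : ∑ w ∈ W, (Finset.univ.filter (fun x : Fin n → Bool => ones x = s ∧ N x = w)).card ≤
      (Finset.univ.filter (fun x : Fin n → Bool => ones x = s)).card := by
    rw [← Finset.card_biUnion]
    · apply Finset.card_le_card
      intro x hx
      rw [Finset.mem_biUnion] at hx
      obtain ⟨w, -, hw⟩ := hx
      rw [Finset.mem_filter] at hw ⊢
      exact ⟨hw.1, hw.2.1⟩
    · intro w _ w' _ hne
      show Disjoint _ _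
      rw [Finset.disjoint_left]
      intro x hx hx'
      rw [Finset.mem_filter] at hx hx'
      exact hne (hx.2.2.symm.trans hx'.2.2)
  have e1 : ∑ w ∈ W, frac (fun x => N x = w) s =
      ((∑ w ∈ W, (Finset.univ.filter
        (fun x : Fin n → Bool => ones x = s ∧ N x = w)).card : ℕ) : ℝ) /
        ((Finset.univ.filter (fun x : Fin n → Bool => ones x = s)).card : ℝ) := by
    rw [Nat.cast_sum, Finset.sum_div]
    refine Finset.sum_congr rfl fun w _ => ?_
    unfold frac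
    congr!
  rw [e1]
  apply div_le_one_of_le₀
  · exact_mod_cast h
  · positivity

theorem frac_self {n w : ℕ} (hw : w ≤ n) : frac (fun x : Fin n → Bool => ones x = w) w = 1 := by
  classical
  obtain ⟨x0, hx0⟩ := layer_nonempty (n := n) (t := w) hw
  have h0 : 0 < (Finset.univ.filter (fun x : Fin n → Bool => ones x = w)).card :=
    Finset.card_pos.2 ⟨x0, by simp [hx0]⟩
  unfold frac
  rw [div_eq_one_iff_eq]
  · congr 2
    ext x
    simp
  · have h5 : ((Finset.univ.filter (fun x : Fin n → Bool => ones x = w)).card : ℝ) ≠ 0 := by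
      exact_mod_cast h0.ne'
    convert h5

theorem tells_of_guesses {k b c e : ℕ} (hk : 1 ≤ k) (h : GuessesOneOf G k b c e) :
    TellsTwoOf G k b c (e + k) := by
  classical
  obtain ⟨a, D, h⟩ := h
  refine ⟨a, D, fun n hn s t hst W hW hs ht hcard hj => ?_⟩
  obtain ⟨N, hN1, hN2⟩ := h n hn s t hst W hW hs ht hcard hj
  suffices hx : ∃ w ∈ W, 1 / ((Nat.log 2 n : ℝ) + 1) ^ (e + k) ≤
      frac (fun x => N x = w) w - frac (fun x => N x = w) s by
    obtain ⟨w, hw, hd⟩ := hx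
    exact ⟨s, hs, w, hw, fun x => N x = w, hN1 w hw, hd.trans (le_abs_self _)⟩
  have hsum := sum_frac_le_one N W s
  have hdiff : 1 / ((Nat.log 2 n : ℝ) + 1) ^ e ≤
      ∑ w ∈ W, (frac (fun x => N x = w) w - frac (fun x => N x = w) s) := by
    rw [Finset.sum_sub_distrib]; linarith
  have hkn : k ≤ n := by
    have := Finset.card_le_card hW
    rw [Nat.card_Icc] at this
    omega
  set L : ℝ := (Nat.log 2 n : ℝ) + 1 with hL
  have hL1 : (1 : ℝ) ≤ L := by
    have : (0 : ℝ) ≤ (Nat.log 2 n : ℝ) := Nat.cast_nonneg _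
    linarith
  have hkL : (k : ℝ) ≤ L ^ k := by
    rcases Nat.lt_or_ge n 2 with h2 | h2
    · have : k = 1 := by omega
      rw [this, pow_one]; exact_mod_cast hL1
    · have h3 : 1 ≤ Nat.log 2 n := Nat.log_pos (by norm_num) h2
      have h4 : (2 : ℝ) ≤ L := by
        have : (1 : ℝ) ≤ (Nat.log 2 n : ℝ) := by exact_mod_cast h3
        linarith
      have h5 : (k : ℝ) ≤ 2 ^ k := by exact_mod_cast (Nat.lt_two_pow_self (n := k)).le
      exact h5.trans (pow_le_pow_left₀ (by norm_num) h4 k)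
  by_contra hno
  push Not at hno
  have e1 : ∑ w ∈ W, (frac (fun x => N x = w) w - frac (fun x => N x = w) s) =
      ∑ w ∈ W.erase s, (frac (fun x => N x = w) w - frac (fun x => N x = w) s) := by
    rw [← Finset.add_sum_erase W _ hs]
    simp
  have hne : (W.erase s).Nonempty := by
    rw [← Finset.card_pos, Finset.card_erase_of_mem hs]
    omega
  have e2 : ∑ w ∈ W.erase s, (frac (fun x => N x = w) w - frac (fun x => N x = w) s) <
      ∑ _w ∈ W.erase s, 1 / L ^ (e + k) :=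
    Finset.sum_lt_sum_of_nonempty hne fun w hw => hno w (Finset.mem_of_mem_erase hw)
  rw [Finset.sum_const, Finset.card_erase_of_mem hs, hcard, nsmul_eq_mul] at e2
  have e3 : ((k + 1 - 1 : ℕ) : ℝ) * (1 / L ^ (e + k)) ≤ 1 / L ^ e := by
    have hLe : 0 < L ^ e := by positivity
    have hLk : 0 < L ^ k := by positivity
    rw [Nat.add_sub_cancel, pow_add, mul_one_div, div_le_div_iff₀ (by positivity) hLe, one_mul]
    calc (k : ℝ) * L ^ e ≤ L ^ k * L ^ e := mul_le_mul_of_nonneg_right hkL hLe.le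
      _ = L ^ e * L ^ k := mul_comm _ _
  linarith

theorem guesses_of_sub {k b c e : ℕ} (hk : 1 ≤ k) (h : TC0 ⊆ {L | Decides G L}) :
    GuessesOneOf G k b c e := by
  obtain ⟨a0, D0, h3⟩ := simul_of_majL ((decides_iff _ _).1 (h majL_tc0))
  obtain ⟨s', ⟨a, ha⟩, D, hD⟩ := count_of_maj (ι := fun _ => ℕ) h3 (fun _ p w => w = p)
  refine ⟨a, D, fun n hn s t hst W hW hs ht hcard _ => ⟨fun x => ones x, fun w _ =>
    (circ_iff _ _ _ _ _).2 (((hD n hn w).mono (ha n) le_rfl).congr fun x => ?_), ?_⟩⟩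
  · show ones x = w ↔ wt x n = w
    rw [ones_eq]
  · have h1 : ∑ w ∈ W, frac (fun x : Fin n → Bool => ones x = w) w = ∑ _w ∈ W, (1 : ℝ) := by
      refine Finset.sum_congr rfl fun w hw => frac_self ?_
      have := Finset.mem_Icc.1 (hW hw)
      omega
    rw [h1, Finset.sum_const, hcard, nsmul_eq_mul, mul_one]
    have h2 : (1 : ℝ) ≤ ((Nat.log 2 n : ℝ) + 1) ^ e := by
      apply one_le_pow₀
      have : (0 : ℝ) ≤ (Nat.log 2 n : ℝ) := Nat.cast_nonneg _
      linarith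
    have h3 : 1 / ((Nat.log 2 n : ℝ) + 1) ^ e ≤ 1 := by
      rw [div_le_one (by positivity)]
      exact h2
    have h4 : (1 : ℝ) ≤ (k : ℝ) := by exact_mod_cast hk
    push_cast
    linarith

theorem tc0_sub_iff_guess (G : ℕ → ℕ → Prop) (k b c e : ℕ) (hk : 1 ≤ k) (hb : 2 ≤ b) :
    TC0 ⊆ {L | Decides G L} ↔ GuessesOneOf G k b c e :=
  ⟨guesses_of_sub hk, fun h => (tc0_sub_iff_two G k b c (e + k) hk hb).2 (tells_of_guesses hk h)⟩

theorem acc0_eq_iff_guess (k c e : ℕ) (hk : 1 ≤ k) :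
    ACC0 = TC0 ↔ ∃ m, 2 ≤ m ∧ GuessesOneOf (fun _ q => q % m ≠ 0) k m c e := by
  rw [acc0_eq_iff]
  constructor
  · rintro ⟨m, hm, h⟩
    exact ⟨m, hm, guesses_of_sub hk ((tc0_sub_iff _).2 h)⟩
  · rintro ⟨m, hm, h⟩
    exact ⟨m, hm, (tc0_sub_iff _).1 ((tc0_sub_iff_guess _ k m c e hk hm).2 h)⟩

end Pool.Agent.TH707.IL
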